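import Pool.Agent.H13.DEV.Targets

/-!
# Row EEXA: the field generated by a root
-/

set_option autoImplicit false

open Polynomial NumberField IsDedekindDomain Pool.Agent.H32.QC Pool.Agent.H34.N6
open Pool.Agent.H13.DEV

namespace Pool.Agent.H89.N6E

theorem pf_EXA : T_EXA := by
  intro k _ _ P hm hi
  have hfact : Fact (Irreducible P) := ⟨hi⟩
  have hfin : Module.Finite k (AdjoinRoot P) := (AdjoinRoot.powerBasis hi.ne_zero).finite
  have hchar : CharZero (AdjoinRoot P) :=
    charZero_of_injective_algebraMap (algebraMap k (AdjoinRoot P)).injective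
  have hsc : IsScalarTower ℚ k (AdjoinRoot P) :=
    IsScalarTower.of_algebraMap_eq fun x => by simp
  have hfinQ : Module.Finite ℚ (AdjoinRoot P) := Module.Finite.trans k (AdjoinRoot P)
  have hnf : NumberField (AdjoinRoot P) := { to_charZero := hchar, to_finiteDimensional := hfinQ }
  refine ⟨AdjoinRoot P, inferInstance, hnf, inferInstance, AdjoinRoot.root P, ⟨?_, ?_⟩, ?_⟩
  · exact IntermediateField.adjoin_eq_top_of_algebra _ _ AdjoinRoot.adjoinRoot_eq_top
  · rw [AdjoinRoot.minpoly_root hi.ne_zero, hm.leadingCoeff, inv_one, map_one, mul_one]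
  · rw [(AdjoinRoot.powerBasis hi.ne_zero).finrank, AdjoinRoot.powerBasis_dim]

end Pool.Agent.H89.N6E
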